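import Pool.Agent.H16.RB2.QK

/-!
# RB2 module Bjs2: `|p G| < p ^ r` for every odd prime
-/

set_option autoImplicit false

namespace Pool.Agent.H16.RB2

open Finset Pool.Agent.H88.Pl Pool.Agent.H16.RB
open scoped Classical

/-- a subgroup of `S` of prescribed order `p ^ m` -/
theorem exists_sub {p m n : ℕ} [Fact p.Prime] {G : Type*} [AddCommGroup G] [Finite G]
    (S : AddSubgroup G) (hS : Nat.card S = p ^ n) (hmn : m ≤ n) :
    ∃ T : AddSubgroup G, T ≤ S ∧ Nat.card T = p ^ m := by
  have h1 : p ^ m ∣ Nat.card (Multiplicative S) := by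
    have h2 : Nat.card (Multiplicative S) = p ^ n := hS
    rw [h2]
    exact pow_dvd_pow p hmn
  obtain ⟨U, hU⟩ := Sylow.exists_subgroup_card_pow_prime p h1
  refine ⟨(AddSubgroup.toSubgroup.symm U).map S.subtype, ?_, ?_⟩
  · rintro _ ⟨x, -, rfl⟩
    exact x.2
  · rw [← hU]
    refine Nat.card_congr ?_
    exact ((AddSubgroup.equivMapOfInjective (AddSubgroup.toSubgroup.symm U) S.subtype
      S.subtype_injective).symm).toEquiv

theorem card_quot {p r k : ℕ} [Fact p.Prime] {G : Type*} [AddCommGroup G] [Finite G]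
    (hG : Nat.card G = p ^ (2 * r)) (hk : Nat.card (Set.range fun g : G => p • g) = p ^ k)
    {m : ℕ} (T : AddSubgroup G) (hT : T ≤ (nsmulAddMonoidHom (α := G) p).range)
    (hTm : Nat.card T = p ^ m) :
    (T.comap (nsmulAddMonoidHom (α := G) p)).index * p ^ m = p ^ k ∧
    Nat.card (Set.range fun q : G ⧸ T => p • q) * p ^ m = p ^ k := by
  have hpp : p.Prime := Fact.out
  set ψ := nsmulAddMonoidHom (α := G) p with hψ
  have hS : Nat.card ψ.range = p ^ k := hk
  have h1 : (T.comap ψ).index = T.relIndex ψ.range := AddSubgroup.index_comap T ψ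
  have h2 : T.relIndex ψ.range * ψ.range.index = T.index := AddSubgroup.relIndex_mul_index hT
  have h3 : Nat.card T * T.index = p ^ (2 * r) := by
    rw [← hG]; exact AddSubgroup.card_mul_index T
  have h4 : Nat.card ψ.range * ψ.range.index = p ^ (2 * r) := by
    rw [← hG]; exact AddSubgroup.card_mul_index _
  have hi : 0 < ψ.range.index := by
    rcases Nat.eq_zero_or_pos ψ.range.index with h | h
    · rw [h, mul_zero] at h4
      exact absurd h4.symm (pow_pos hpp.pos _).ne'
    · exact h
  have h5 : (T.comap ψ).index * p ^ m = p ^ k := by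
    apply Nat.eq_of_mul_eq_mul_right hi
    calc (T.comap ψ).index * p ^ m * ψ.range.index
        = p ^ m * (T.relIndex ψ.range * ψ.range.index) := by rw [h1]; ring
      _ = Nat.card T * T.index := by rw [h2, hTm]
      _ = Nat.card ψ.range * ψ.range.index := by rw [h3, h4]
      _ = p ^ k * ψ.range.index := by rw [hS]
  refine ⟨h5, ?_⟩
  set φ : G →+ G ⧸ T := (QuotientAddGroup.mk' T).comp ψ with hφ
  have h6 : φ.ker = T.comap ψ := by
    ext g
    rw [AddMonoidHom.mem_ker, hφ, AddMonoidHom.comp_apply, QuotientAddGroup.mk'_apply,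
      QuotientAddGroup.eq_zero_iff, AddSubgroup.mem_comap]
  have h7 : (Set.range fun q : G ⧸ T => p • q) = (φ.range : Set (G ⧸ T)) := by
    ext y
    constructor
    · rintro ⟨q, rfl⟩
      obtain ⟨g, rfl⟩ := QuotientAddGroup.mk'_surjective T q
      exact ⟨g, by rw [hφ, AddMonoidHom.comp_apply, hψ, nsmulAddMonoidHom_apply, map_nsmul]⟩
    · rintro ⟨g, rfl⟩
      exact ⟨QuotientAddGroup.mk' T g, by
        rw [hφ, AddMonoidHom.comp_apply, hψ, nsmulAddMonoidHom_apply, map_nsmul]⟩
  rw [h7]
  have h8 : Nat.card (φ.range : Set (G ⧸ T)) = φ.ker.index := (AddSubgroup.index_ker φ).symm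
  rw [h8, h6]
  exact h5

/-- Blokhuis–Jungnickel–Schmidt, for every odd prime -/
theorem bjs2 {p r k : ℕ} [Fact p.Prime] (hp : p ≠ 2) {H K : Type*} [AddCommGroup H]
    [AddCommGroup K] [Fintype H] [Fintype K] (hH : Fintype.card H = p ^ r)
    (hK : Fintype.card K = p ^ r) (f : H → K) (hf : IsPlanar f) (hr : 1 ≤ r)
    (hk : Nat.card (Set.range fun g : H × K => p • g) = p ^ k) : k < r := by
  have hpp : p.Prime := Fact.out
  have hp3 : 3 ≤ p := by have := hpp.two_le; omega
  by_contra hcon
  push Not at hcon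
  have hG : Nat.card (H × K) = p ^ (2 * r) := by
    rw [Nat.card_prod, Nat.card_eq_fintype_card, Nat.card_eq_fintype_card, hH, hK, ← pow_add]
    congr 1
    ring
  have hS : Nat.card (nsmulAddMonoidHom (α := H × K) p).range = p ^ k := hk
  obtain ⟨T, hT, hTm⟩ := exists_sub (m := k - r) _ hS (by omega)
  obtain ⟨h1, h2⟩ := card_quot hG hk T hT hTm
  have hsplit : p ^ k = p ^ r * p ^ (k - r) := by rw [← pow_add]; congr 1; omega
  have h3 : (T.comap (nsmulAddMonoidHom (α := H × K) p)).index = p ^ r :=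
    Nat.eq_of_mul_eq_mul_right (pow_pos hpp.pos (k - r)) (by rw [h1, hsplit])
  have h4 : Nat.card (Set.range fun q : (H × K) ⧸ T => p • q) = p ^ r :=
    Nat.eq_of_mul_eq_mul_right (pow_pos hpp.pos (k - r)) (by rw [h2, hsplit])
  have h5 : Nat.card (T.comap (nsmulAddMonoidHom (α := H × K) p)) = p ^ r := by
    have h6 := AddSubgroup.card_mul_index (T.comap (nsmulAddMonoidHom (α := H × K) p))
    rw [h3, hG, two_mul, pow_add] at h6
    exact Nat.eq_of_mul_eq_mul_right (pow_pos hpp.pos r) h6
  have h6 : (univ.filter fun g : H × K => p • g ∈ T).card = p ^ r := by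
    rw [← h5, Nat.card_eq_fintype_card, Fintype.card_subtype]
    congr 1
  -- every part has at least `p` points
  have h7 : ∀ x, p ≤ (univ.filter fun y => p • (gr f y - gr f x) ∈ T).card := by
    intro x
    have h8 := quot_kills (n := 1) hp hH hK f hf T h4 (by
      obtain ⟨q, rfl⟩ : ∃ q, p = q + 3 := ⟨p - 3, by omega⟩
      rw [show q + 3 - 1 = q + 2 from rfl]
      have : 2 * (r * (q + 2)) < r * (q + 3) * (q + 2) := by
        have h9 : 0 < r * (q + 2) := Nat.mul_pos (by omega) (by omega)
        nlinarith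
      omega) (gr f x) [] (by simp)
    simp only [List.map_nil, List.prod_nil, sum_const, nsmul_eq_mul, mul_one] at h8
    have h9 : p ∣ (univ.filter fun y => p • (gr f y - gr f x) ∈ T).card :=
      (ZMod.natCast_eq_zero_iff _ _).1 h8
    refine Nat.le_of_dvd (card_pos.2 ⟨x, ?_⟩) h9
    rw [mem_filter]
    refine ⟨mem_univ _, ?_⟩
    rw [sub_self, smul_zero]
    exact T.zero_mem
  have h8 : p ^ r * p ≤ ∑ x, (univ.filter fun y => p • (gr f y - gr f x) ∈ T).card := by
    rw [← hH, ← smul_eq_mul, ← card_univ]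
    exact card_nsmul_le_sum _ _ _ fun x _ => h7 x
  have h9 : ∑ x, (univ.filter fun y => p • (gr f y - gr f x) ∈ T).card ≤ p ^ r + p ^ r := by
    have e1 : ∑ x, (univ.filter fun y => p • (gr f y - gr f x) ∈ T).card =
        (univ.filter fun z : H × H => p • (gr f z.1 - gr f z.2) ∈ T).card := by
      rw [card_filter, Fintype.sum_prod_type, sum_comm]
      refine sum_congr rfl fun x _ => ?_
      rw [card_filter]
    have e2 : (univ.filter fun z : H × H => p • (gr f z.1 - gr f z.2) ∈ T) ⊆
        (univ.image fun x : H => (x, x)) ∪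
        (univ.filter fun z : H × H => z.1 ≠ z.2 ∧ p • (gr f z.1 - gr f z.2) ∈ T) := by
      intro z hz
      rw [mem_filter] at hz
      rw [mem_union, mem_image, mem_filter]
      by_cases h : z.1 = z.2
      · left
        exact ⟨z.1, mem_univ _, Prod.ext rfl h⟩
      · right
        exact ⟨mem_univ _, h, hz.2⟩
    rw [e1]
    refine (card_le_card e2).trans ((card_union_le _ _).trans ?_)
    refine Nat.add_le_add ?_ ?_
    · rw [← hH]
      exact card_image_le.trans (le_of_eq card_univ)
    · have e3 := pair_count f hf fun g => p • g ∈ T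
      calc (univ.filter fun z : H × H => z.1 ≠ z.2 ∧ p • (gr f z.1 - gr f z.2) ∈ T).card
          = (univ.filter fun g : H × K => g.1 ≠ 0 ∧ p • g ∈ T).card := by convert e3
        _ ≤ (univ.filter fun g : H × K => p • g ∈ T).card := card_le_card fun g hg => by
          rw [mem_filter] at hg ⊢
          exact ⟨hg.1, hg.2.2⟩
        _ = p ^ r := h6
  have hpr : 0 < p ^ r := pow_pos hpp.pos _
  have h10 : p ^ r * 3 ≤ p ^ r * p := Nat.mul_le_mul_left _ hp3
  omega

end Pool.Agent.H16.RB2
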