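import Pool.Agent.H16.RB.Cyc
import Pool.Agent.H16.RB.QB

/-!
# RB2 module Dig2: the difference of two neighbouring digits
-/

set_option autoImplicit false

namespace Pool.Agent.H16.RB2

open Finset NumberField Pool.Agent.H16.RB

/-- the product with one factor less: it distinguishes `w` and `w + 1` -/
theorem digit_factor2 {O : Type*} [CommRing O] [IsDomain O] {p : ℕ} [Fact p.Prime] {d : ℕ}
    {η π : O} (hd : 1 ≤ d) (hη : IsPrimitiveRoot η (p ^ (d + 1))) (hπ : π ∣ η - 1)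
    (hp : π ∣ (p : O)) (α w : ℕ) :
    ∃ u : O, ∏ t ∈ Ico 2 (p ^ d), (η ^ α - η ^ (w + t)) =
        (∏ t ∈ Ico 1 (p ^ d - 1), (1 - η ^ t)) * u ∧
      π ∣ u - ((if α ≡ w + 1 [MOD p ^ d] then 1 else 0) - (if α ≡ w [MOD p ^ d] then 1 else 0)) := by
  have hp1 : 1 < p := (Fact.out : p.Prime).one_lt
  obtain ⟨N, hN⟩ : ∃ N, N = p ^ d := ⟨_, rfl⟩
  have hN2 : 2 ≤ N := by
    rw [hN]
    calc 2 ≤ p := hp1
      _ = p ^ 1 := (pow_one p).symm
      _ ≤ p ^ d := Nat.pow_le_pow_right (by omega) hd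
  have hNlt : N < p ^ (d + 1) := by rw [hN]; exact Nat.pow_lt_pow_right hp1 (by omega)
  obtain ⟨u0, hu0, hu0'⟩ := digit_factor hη hπ hp α w
  obtain ⟨u1, hu1, hu1'⟩ := digit_factor hη hπ hp α (w + 1)
  rw [← hN] at hu0 hu0' hu1 hu1' ⊢
  set Q : O := ∏ t ∈ Ico 2 N, (η ^ α - η ^ (w + t)) with hQ
  have e0 : ∏ t ∈ Ico 1 N, (η ^ α - η ^ (w + t)) = (η ^ α - η ^ (w + 1)) * Q := by
    rw [Finset.prod_eq_prod_Ico_succ_bot (by omega)]
  have e1 : ∏ t ∈ Ico 1 N, (η ^ α - η ^ (w + 1 + t)) = Q * (η ^ α - η ^ (w + N)) := by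
    have h1 : ∏ t ∈ Ico 1 N, (η ^ α - η ^ (w + 1 + t)) =
        ∏ t ∈ Ico 2 (N + 1), (η ^ α - η ^ (w + t)) := by
      rw [Finset.prod_Ico_eq_prod_range, Finset.prod_Ico_eq_prod_range]
      rw [show N + 1 - 2 = N - 1 by omega]
      exact prod_congr rfl fun t _ => by rw [show w + 1 + (1 + t) = w + (2 + t) by ring]
    rw [h1, Finset.prod_Ico_succ_top (by omega)]
  have ec : ∏ t ∈ Ico 1 N, (1 - η ^ t) = (∏ t ∈ Ico 1 (N - 1), (1 - η ^ t)) * (1 - η ^ (N - 1)) := by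
    obtain ⟨n, rfl⟩ : ∃ n, N = n + 1 := ⟨N - 1, by omega⟩
    rw [Finset.prod_Ico_succ_top (by omega), Nat.add_sub_cancel]
  have hy : (1 - η ^ (N - 1)) ≠ 0 := by
    intro h
    have h1 : η ^ (N - 1) = 1 := (sub_eq_zero.1 h).symm
    have h2 := (hη.pow_eq_one_iff_dvd _).1 h1
    have h3 := Nat.le_of_dvd (by omega) h2
    omega
  have hinv : η ^ (w + 1) * η ^ ((w + 1) * (p ^ (d + 1) - 1)) = 1 := by
    rw [← pow_add, show w + 1 + (w + 1) * (p ^ (d + 1) - 1) = p ^ (d + 1) * (w + 1) by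
      have : 1 ≤ p ^ (d + 1) := Nat.one_le_pow _ _ (by omega)
      obtain ⟨m, hm⟩ : ∃ m, p ^ (d + 1) = m + 1 := ⟨p ^ (d + 1) - 1, by omega⟩
      rw [hm, Nat.add_sub_cancel]; ring, pow_mul, hη.pow_eq_one, one_pow]
  rw [e0, ec] at hu0
  rw [e1, ec] at hu1
  have key : Q * (-η ^ (w + 1)) = (∏ t ∈ Ico 1 (N - 1), (1 - η ^ t)) * (u0 - u1) := by
    apply mul_right_cancel₀ hy
    have h1 : η ^ (w + N) = η ^ (w + 1) * η ^ (N - 1) := by
      rw [← pow_add]; congr 1; omega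
    have h2 : (η ^ α - η ^ (w + 1)) * Q - Q * (η ^ α - η ^ (w + N)) =
        Q * (-η ^ (w + 1)) * (1 - η ^ (N - 1)) := by
      rw [h1]; ring
    rw [← h2, hu0, hu1]
    ring
  refine ⟨(u1 - u0) * η ^ ((w + 1) * (p ^ (d + 1) - 1)), ?_, ?_⟩
  · calc Q = Q * (-η ^ (w + 1)) * (-η ^ ((w + 1) * (p ^ (d + 1) - 1))) := by
          rw [mul_assoc, neg_mul_neg, hinv, mul_one]
      _ = _ := by rw [key]; ring
  · have h1 : π ∣ η ^ ((w + 1) * (p ^ (d + 1) - 1)) - 1 :=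
      hπ.trans (sub_one_dvd_pow_sub_one η _)
    have h2 : (u1 - u0) * η ^ ((w + 1) * (p ^ (d + 1) - 1)) -
        ((if α ≡ w + 1 [MOD N] then 1 else 0) - (if α ≡ w [MOD N] then 1 else 0)) =
        (u1 - u0) * (η ^ ((w + 1) * (p ^ (d + 1) - 1)) - 1) +
        (u1 - (if α ≡ w + 1 [MOD N] then 1 else 0)) - (u0 - (if α ≡ w [MOD N] then 1 else 0)) := by
      ring
    rw [h2]
    exact dvd_sub (dvd_add (dvd_mul_of_dvd_right h1 _) hu1') hu0'

/-- cancellation of a factor of small valuation, two versions -/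
theorem cancel2 {p k : ℕ} [Fact p.Prime] {L : Type*} [Field L] [NumberField L]
    [IsCyclotomicExtension {p ^ (k + 1)} ℚ L] {ζ : L} (hζ : IsPrimitiveRoot ζ (p ^ (k + 1)))
    {c y U : 𝓞 L} {M C : ℕ} (h : (hζ.toInteger - 1) ^ M ∣ c * U)
    (hc : (c * y) ^ p ∣ (hζ.toInteger - 1) ^ C)
    (hCM : C < p * M ∨ (C ≤ p * M ∧ (hζ.toInteger - 1) ∣ y)) : (hζ.toInteger - 1) ∣ U := by
  have hp : p.Prime := Fact.out
  have hπ : Prime (hζ.toInteger - 1) := hζ.zeta_sub_one_prime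
  rcases hCM with hCM | ⟨hCM, hy⟩
  · exact cancel hζ h ((pow_dvd_pow_of_dvd (dvd_mul_right c y) p).trans hc) hCM
  · set π := hζ.toInteger - 1 with hπd
    have h1 : (c * π) ^ p ∣ π ^ C := (pow_dvd_pow_of_dvd (mul_dvd_mul_left c hy) p).trans hc
    have hcp : c ∣ π ^ C := ((dvd_mul_right c π).trans (dvd_pow_self _ hp.ne_zero)).trans h1
    obtain ⟨i, -, hi⟩ := (dvd_prime_pow hπ _).1 hcp
    have h2 : π ^ ((i + 1) * p) ∣ π ^ C := by
      rw [pow_mul, pow_succ]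
      exact (pow_dvd_pow_of_dvd (mul_dvd_mul_right hi.symm.dvd π) p).trans h1
    have h3 : (i + 1) * p ≤ C := (pow_dvd_pow_iff hπ.ne_zero hπ.not_isUnit).1 h2
    have h4 : i < M := by
      have h5 : p * (i + 1) ≤ p * M := by rw [mul_comm p (i + 1)]; omega
      exact Nat.le_of_mul_le_mul_left h5 hp.pos
    have h5 : π ^ M ∣ π ^ i * U := h.trans (mul_dvd_mul_right hi.dvd U)
    have h6 : π ^ (i + 1) ∣ π ^ i * U := (pow_dvd_pow π h4).trans h5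
    rw [pow_succ] at h6
    exact (mul_dvd_mul_iff_left (pow_ne_zero i hπ.ne_zero)).1 h6

end Pool.Agent.H16.RB2
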