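import Pool.Agent.H16.RB2.Key2

/-!
# RB2 module Fib2: sums over the fibres of the digits
-/

set_option autoImplicit false

namespace Pool.Agent.H16.RB2

open Finset Pool.Agent.H88.Pl Pool.Agent.H16.RB
open scoped Classical

/-- the part of the graph with digits `w` -/
noncomputable def fb {p : ℕ} {H K : Type*} [AddCommGroup H] [AddCommGroup K] [Fintype H] (f : H → K)
    {J : Type} (d : J → ℕ) (a : ∀ j, H × K →+ ZMod (p ^ (d j + 1))) (w : J → ℕ) : Finset H :=
  univ.filter fun x => ∀ j, (a j (gr f x)).val ≡ w j [MOD p ^ (d j)]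

section

variable {p r : ℕ} [Fact p.Prime] {H K : Type*} [AddCommGroup H]
    [AddCommGroup K] [Fintype H] [Fintype K] {J : Type} [Fintype J]

theorem fib_kill (hp : p ≠ 2) (hH : Fintype.card H = p ^ r) (f : H → K)
    (hf : IsPlanar f) (d : J → ℕ)
    (a : ∀ j, H × K →+ ZMod (p ^ (d j + 1))) (w : J → ℕ)
    (Ls : List ((H × K →+ ZMod p) × ZMod p))
    (hn : 2 * ((∑ j, d j) * (p - 1) + p * Ls.length) < r * p * (p - 1)) :
    ∑ x ∈ fb f d a w, (Ls.map fun l => l.1 (gr f x) - l.2).prod = 0 := by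
  have h := key2 hp hH f hf d a w (fun _ => 0) (fun _ => Or.inl rfl) Ls (Or.inl hn)
  rw [fb, sum_filter]
  refine Eq.trans (sum_congr rfl fun x _ => ?_) h
  by_cases h2 : ∀ j, (a j (gr f x)).val ≡ w j [MOD p ^ (d j)]
  · rw [if_pos h2]
    have h1 : (∏ j, ind (p ^ (d j)) 0 (a j (gr f x)).val (w j)) = 1 :=
      prod_eq_one fun j _ => by rw [ind, if_pos rfl, if_pos (h2 j)]
    rw [h1, Int.cast_one, one_mul]
  · rw [if_neg h2]
    have h1 : (∏ j, ind (p ^ (d j)) 0 (a j (gr f x)).val (w j)) = 0 := by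
      push Not at h2
      obtain ⟨j, hj⟩ := h2
      exact prod_eq_zero (mem_univ j) (by rw [ind, if_pos rfl, if_neg hj])
    rw [h1, Int.cast_zero, zero_mul]

end

end Pool.Agent.H16.RB2
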