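import Pool.Agent.H16.RB.Key
import Pool.Agent.H16.RB2.Dig2

/-!
# RB2 module Key2: digits and functionals with the exact costs
-/

set_option autoImplicit false

namespace Pool.Agent.H16.RB2

open Finset NumberField Pool.Agent.H88.Pl Pool.Agent.H16.RB
open scoped Classical

/-- the digit indicator (`σ = 0`) or the difference of two neighbouring indicators (`σ = 1`) -/
noncomputable def ind (N σ α w : ℕ) : ℤ :=
  if σ = 0 then (if α ≡ w [MOD N] then 1 else 0)
  else (if α ≡ w + 1 [MOD N] then 1 else 0) - (if α ≡ w [MOD N] then 1 else 0)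

theorem key2 {p r : ℕ} [Fact p.Prime] (hp : p ≠ 2) {H K : Type*} [AddCommGroup H]
    [AddCommGroup K] [Fintype H] [Fintype K] (hH : Fintype.card H = p ^ r) (f : H → K)
    (hf : IsPlanar f) {J : Type} [Fintype J] (d : J → ℕ)
    (a : ∀ j, H × K →+ ZMod (p ^ (d j + 1))) (w0 : J → ℕ) (σ : J → ℕ)
    (hσ : ∀ j, σ j = 0 ∨ (σ j = 1 ∧ 1 ≤ d j))
    (Ls : List ((H × K →+ ZMod p) × ZMod p))
    (hn : 2 * ((∑ j, d j) * (p - 1) + p * Ls.length) < r * p * (p - 1) ∨
      (2 * ((∑ j, d j) * (p - 1) + p * Ls.length) ≤ r * p * (p - 1) ∧ ∃ j, σ j = 1)) :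
    ∑ x, ((∏ j, ind (p ^ (d j)) (σ j) (a j (gr f x)).val (w0 j) : ℤ) : ZMod p) *
      (Ls.map fun l => l.1 (gr f x) - l.2).prod = 0 := by
  have hpp : p.Prime := Fact.out
  have hpos : 0 < p := hpp.pos
  obtain ⟨k, hk⟩ : ∃ k, k = ∑ j, d j := ⟨_, rfl⟩
  have hdk : ∀ j, d j ≤ k := fun j => by
    rw [hk]; exact single_le_sum (fun _ _ => Nat.zero_le _) (mem_univ j)
  rw [← hk] at hn
  have hnz : p ^ (k + 1) ≠ 0 := pow_ne_zero _ hpp.ne_zero
  have : NeZero (p ^ (k + 1)) := ⟨hnz⟩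
  let L := CyclotomicField (p ^ (k + 1)) ℚ
  have hL : IsCyclotomicExtension {p ^ (k + 1)} ℚ L := CyclotomicField.isCyclotomicExtension _ _
  have : NumberField L := IsCyclotomicExtension.numberField {p ^ (k + 1)} ℚ L
  let ζ : L := IsCyclotomicExtension.zeta (p ^ (k + 1)) ℚ L
  have hζ : IsPrimitiveRoot ζ (p ^ (k + 1)) := IsCyclotomicExtension.zeta_spec _ _ _
  have hzp : IsPrimitiveRoot hζ.toInteger (p ^ (k + 1)) := hζ.toInteger_isPrimitiveRoot
  set z : 𝓞 L := hζ.toInteger with hz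
  have hz1 : z ^ (p ^ (k + 1)) = 1 := hzp.pow_eq_one
  obtain ⟨M, hM⟩ : ∃ M, 2 * M = r * (p ^ k * (p - 1)) := by
    have h1 : Even (p - 1) := (hpp.odd_of_ne_two hp).tsub_odd odd_one
    obtain ⟨c, hc⟩ := h1
    exact ⟨r * (p ^ k * c), by rw [hc]; ring⟩
  -- fine functions
  let fine : (H → 𝓞 L) → Prop := fun F =>
    ∀ b : H × K →+ ZMod (p ^ (k + 1)), (z - 1) ^ M ∣ ∑ x, z ^ (b (gr f x)).val * F x
  have fine_one : fine (fun _ => 1) := by
    intro b
    simp only [mul_one]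
    exact val_sum hp hH f hf hζ b M hM
  have fine_step : ∀ (F : H → 𝓞 L) (b : H × K →+ ZMod (p ^ (k + 1))) (c : 𝓞 L), fine F →
      fine (fun x => F x * (z ^ (b (gr f x)).val - c)) := by
    intro F b c hF b'
    have h1 : ∑ x, z ^ (b' (gr f x)).val * (F x * (z ^ (b (gr f x)).val - c)) =
        ∑ x, z ^ ((b' + b) (gr f x)).val * F x - c * ∑ x, z ^ (b' (gr f x)).val * F x := by
      rw [mul_sum, ← sum_sub_distrib]
      refine sum_congr rfl fun x _ => ?_
      rw [AddMonoidHom.add_apply, Key.pow_val_add' hz1]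
      ring
    rw [h1]
    exact dvd_sub (hF _) ((hF _).mul_left c)
  have fine_prod : ∀ {ι : Type} (T : Finset ι) (b : ι → (H × K →+ ZMod (p ^ (k + 1))))
      (c : ι → 𝓞 L) (F : H → 𝓞 L), fine F →
      fine (fun x => F x * ∏ t ∈ T, (z ^ (b t (gr f x)).val - c t)) := by
    intro ι T b c F hF
    induction T using Finset.induction_on with
    | empty => simpa using hF
    | insert t T ht ih =>
      have := fine_step _ (b t) (c t) ih
      refine cast ?_ this
      congr 1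
      funext x
      rw [prod_insert ht]
      ring
  -- the digit factors
  have hη : ∀ j, IsPrimitiveRoot (z ^ (p ^ (k - d j))) (p ^ (d j + 1)) := by
    intro j
    refine hzp.pow (Nat.pos_of_ne_zero hnz) ?_
    rw [← pow_add]
    congr 1
    have := hdk j
    omega
  have hb : ∀ j, ∃ b : H × K →+ ZMod (p ^ (k + 1)), ∀ g,
      z ^ (b g).val = (z ^ (p ^ (k - d j))) ^ (a j g).val := by
    intro j
    have : NeZero (p ^ (d j + 1)) := ⟨pow_ne_zero _ hpp.ne_zero⟩
    obtain ⟨b, hb⟩ := Key.exists_hom (n := p ^ (d j + 1)) (m := p ^ (k - d j)) (N := p ^ (k + 1))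
      (by
        rw [← pow_add]
        congr 1
        have := hdk j
        omega) (a j)
    exact ⟨b, hb (𝓞 L) z hz1⟩
  choose b hb using hb
  have fine_digits : ∀ T : Finset J, fine (fun x => ∏ j ∈ T, ∏ t ∈ Ico (1 + σ j) (p ^ (d j)),
      ((z ^ (p ^ (k - d j))) ^ (a j (gr f x)).val - (z ^ (p ^ (k - d j))) ^ (w0 j + t))) := by
    intro T
    induction T using Finset.induction_on with
    | empty => simpa using fine_one
    | insert j T hj ih =>
      have := fine_prod (Ico (1 + σ j) (p ^ (d j))) (fun _ => b j)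
        (fun t => (z ^ (p ^ (k - d j))) ^ (w0 j + t)) _ ih
      refine cast ?_ this
      congr 1
      funext x
      rw [prod_insert hj, mul_comm]
      congr 1
      refine prod_congr rfl fun t _ => ?_
      rw [hb j]
  -- the linear factors
  set η : 𝓞 L := z ^ (p ^ k) with hηdef
  have hbl : ∀ l : H × K →+ ZMod p, ∃ b : H × K →+ ZMod (p ^ (k + 1)), ∀ g,
      z ^ (b g).val = η ^ (l g).val := by
    intro l
    obtain ⟨b, hb⟩ := Key.exists_hom (n := p) (m := p ^ k) (N := p ^ (k + 1)) (pow_succ p k).symm l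
    exact ⟨b, hb (𝓞 L) z hz1⟩
  have fine_list : ∀ Ls : List ((H × K →+ ZMod p) × ZMod p), ∀ F, fine F →
      fine (fun x => F x * (Ls.map fun l => η ^ (l.1 (gr f x)).val - η ^ l.2.val).prod) := by
    intro Ls
    induction Ls with
    | nil => intro F hF; simpa using hF
    | cons l Ls ih =>
      intro F hF
      obtain ⟨b', hb'⟩ := hbl l.1
      have h1 := ih _ (fine_step F b' (η ^ l.2.val) hF)
      refine cast ?_ h1
      congr 1
      funext x
      rw [List.map_cons, List.prod_cons, hb']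
      ring
  have hfin := fine_list Ls _ (fine_digits univ) 0
  -- local expansions
  have hππ : (z - 1) ∣ (p : 𝓞 L) := pi_dvd_p hζ
  have hη1 : ∀ j, (z - 1) ∣ z ^ (p ^ (k - d j)) - 1 := fun j => sub_one_dvd_pow_sub_one z _
  have hdig : ∀ j x, ∃ u : 𝓞 L, ∏ t ∈ Ico (1 + σ j) (p ^ (d j)),
      ((z ^ (p ^ (k - d j))) ^ (a j (gr f x)).val - (z ^ (p ^ (k - d j))) ^ (w0 j + t)) =
        (∏ t ∈ Ico 1 (p ^ (d j) - σ j), (1 - (z ^ (p ^ (k - d j))) ^ t)) * u ∧
      (z - 1) ∣ u - (ind (p ^ (d j)) (σ j) (a j (gr f x)).val (w0 j) : ℤ) := by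
    intro j x
    rcases hσ j with h0 | ⟨h1, hd1⟩
    · obtain ⟨u, hu, hu'⟩ := digit_factor (hη j) (hη1 j) hππ (a j (gr f x)).val (w0 j)
      refine ⟨u, ?_, ?_⟩
      · rw [show 1 + σ j = 1 by omega, show p ^ (d j) - σ j = p ^ (d j) by omega]; exact hu
      · rw [ind, if_pos h0]; push_cast; exact hu'
    · obtain ⟨u, hu, hu'⟩ := digit_factor2 hd1 (hη j) (hη1 j) hππ (a j (gr f x)).val (w0 j)
      refine ⟨u, ?_, ?_⟩
      · rw [show 1 + σ j = 2 by omega, show p ^ (d j) - σ j = p ^ (d j) - 1 by omega]; exact hu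
      · rw [ind, if_neg (by omega)]; push_cast; exact hu'
  choose u hu1 hu2 using hdig
  have hlin : ∀ (l : (H × K →+ ZMod p) × ZMod p) x, ∃ u : 𝓞 L,
      η ^ (l.1 (gr f x)).val - η ^ l.2.val = (η - 1) * u ∧
      (z - 1) ∣ u - (((l.1 (gr f x)).val : 𝓞 L) - (l.2.val : 𝓞 L)) := by
    intro l x
    exact lin_factor η (z - 1) (sub_one_dvd_pow_sub_one z _) _ _
  choose w hw1 hw2 using hlin
  set C : 𝓞 L := (∏ j, ∏ t ∈ Ico 1 (p ^ (d j) - σ j), (1 - (z ^ (p ^ (k - d j))) ^ t)) *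
    (η - 1) ^ Ls.length with hC
  set Y : 𝓞 L := ∏ j, (if σ j = 1 then (1 - (z ^ (p ^ (k - d j))) ^ (p ^ (d j) - 1)) else 1) with hY
  set U : H → 𝓞 L := fun x => (∏ j, u j x) * (Ls.map fun l => w l x).prod with hU
  have hprod : ∀ x, (∏ j, ∏ t ∈ Ico (1 + σ j) (p ^ (d j)), ((z ^ (p ^ (k - d j))) ^ (a j (gr f x)).val -
      (z ^ (p ^ (k - d j))) ^ (w0 j + t))) *
      (Ls.map fun l => η ^ (l.1 (gr f x)).val - η ^ l.2.val).prod = C * U x := by
    intro x
    have h1 : (∏ j, ∏ t ∈ Ico (1 + σ j) (p ^ (d j)), ((z ^ (p ^ (k - d j))) ^ (a j (gr f x)).val -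
      (z ^ (p ^ (k - d j))) ^ (w0 j + t))) =
      (∏ j, ∏ t ∈ Ico 1 (p ^ (d j) - σ j), (1 - (z ^ (p ^ (k - d j))) ^ t)) * ∏ j, u j x := by
      rw [← prod_mul_distrib]
      exact prod_congr rfl fun j _ => hu1 j x
    have h2 : ∀ Ls : List ((H × K →+ ZMod p) × ZMod p),
        (Ls.map fun l => η ^ (l.1 (gr f x)).val - η ^ l.2.val).prod =
        (η - 1) ^ Ls.length * (Ls.map fun l => w l x).prod := by
      intro Ls
      induction Ls with
      | nil => simp
      | cons l Ls ih =>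
        rw [List.map_cons, List.prod_cons, ih, hw1 l x, List.map_cons, List.prod_cons,
          List.length_cons]
        ring
    rw [h1, h2, hC, hU]
    ring
  have hdvd : (z - 1) ^ M ∣ C * ∑ x, U x := by
    rw [mul_sum]
    refine cast ?_ hfin
    congr 1
    refine sum_congr rfl fun x _ => ?_
    rw [AddMonoidHom.zero_apply, ZMod.val_zero, pow_zero, one_mul]
    exact hprod x
  have hCY : C * Y = (∏ j, ∏ t ∈ Ico 1 (p ^ (d j)), (1 - (z ^ (p ^ (k - d j))) ^ t)) *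
      (η - 1) ^ Ls.length := by
    have h1 : ∀ j, (∏ t ∈ Ico 1 (p ^ (d j) - σ j), (1 - (z ^ (p ^ (k - d j))) ^ t)) *
        (if σ j = 1 then (1 - (z ^ (p ^ (k - d j))) ^ (p ^ (d j) - 1)) else 1) =
        ∏ t ∈ Ico 1 (p ^ (d j)), (1 - (z ^ (p ^ (k - d j))) ^ t) := by
      intro j
      rcases hσ j with h0 | ⟨h1, hd1⟩
      · rw [if_neg (by omega), show p ^ (d j) - σ j = p ^ (d j) by omega, mul_one]
      · rw [if_pos h1, show p ^ (d j) - σ j = p ^ (d j) - 1 by omega]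
        have h2 : 2 ≤ p ^ (d j) := by
          calc 2 ≤ p := hpp.two_le
            _ = p ^ 1 := (pow_one p).symm
            _ ≤ p ^ (d j) := Nat.pow_le_pow_right hpos hd1
        obtain ⟨n, hn⟩ : ∃ n, p ^ (d j) = n + 1 := ⟨p ^ (d j) - 1, by omega⟩
        rw [hn, Finset.prod_Ico_succ_top (by omega), Nat.add_sub_cancel]
    have h2 : (∏ j, ∏ t ∈ Ico 1 (p ^ (d j)), (1 - (z ^ (p ^ (k - d j))) ^ t)) =
        (∏ j, ∏ t ∈ Ico 1 (p ^ (d j) - σ j), (1 - (z ^ (p ^ (k - d j))) ^ t)) * Y := by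
      rw [hY, ← prod_mul_distrib]
      exact prod_congr rfl fun j _ => (h1 j).symm
    rw [h2, hC]
    ring
  have hCp : (C * Y) ^ p ∣ (z - 1) ^ ((∑ j, d j) * (p - 1) * p ^ k + p ^ k * (Ls.length * p)) := by
    rw [hCY, mul_pow, pow_add (z - 1)]
    refine mul_dvd_mul ?_ ?_
    · rw [← prod_pow, sum_mul, sum_mul, ← prod_pow_eq_pow_sum univ _ (z - 1)]
      exact prod_dvd_prod_of_dvd _ _ fun j _ => cost_digit hζ (hdk j)
    · rw [← pow_mul (η - 1), pow_mul (z - 1)]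
      exact pow_dvd_pow_of_dvd (cost_lin hζ) _
  have hpk : 0 < p ^ k := pow_pos hpos k
  have e1 : 2 * ((∑ j, d j) * (p - 1) * p ^ k + p ^ k * (Ls.length * p)) =
      p ^ k * (2 * (k * (p - 1) + p * Ls.length)) := by rw [← hk]; ring
  have e2 : 2 * (p * M) = p ^ k * (r * p * (p - 1)) := by
    calc 2 * (p * M) = p * (2 * M) := by ring
      _ = _ := by rw [hM]; ring
  have hnum : (∑ j, d j) * (p - 1) * p ^ k + p ^ k * (Ls.length * p) < p * M ∨
      ((∑ j, d j) * (p - 1) * p ^ k + p ^ k * (Ls.length * p) ≤ p * M ∧ (z - 1) ∣ Y) := by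
    rcases hn with hn | ⟨hn, j, hj⟩
    · left
      have h1 := Nat.mul_lt_mul_of_pos_left hn hpk
      rw [← e1, ← e2] at h1
      omega
    · right
      have h1 := Nat.mul_le_mul_left (p ^ k) hn
      rw [← e1, ← e2] at h1
      refine ⟨by omega, ?_⟩
      refine dvd_trans ?_ (dvd_prod_of_mem _ (mem_univ j))
      rw [if_pos hj]
      have h2 := ((hη1 j).trans (sub_one_dvd_pow_sub_one (z ^ (p ^ (k - d j))) (p ^ (d j) - 1)))
      rw [← dvd_neg, neg_sub] at h2
      exact h2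
  have hπU : (z - 1) ∣ ∑ x, U x := cancel2 hζ hdvd hCp hnum
  -- reduction
  have hcong : ∀ x, (z - 1) ∣ U x - (((∏ j, ind (p ^ (d j)) (σ j) (a j (gr f x)).val (w0 j)) *
      (Ls.map fun l => ((l.1 (gr f x)).val : ℤ) - (l.2.val : ℤ)).prod : ℤ) : 𝓞 L) := by
    intro x
    have hmk : ∀ a b : 𝓞 L, (z - 1) ∣ a - b ↔
        Ideal.Quotient.mk (Ideal.span {z - 1}) a = Ideal.Quotient.mk (Ideal.span {z - 1}) b := by
      intro a b
      rw [Ideal.Quotient.eq, Ideal.mem_span_singleton]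
    rw [hmk, hU]
    have e2 : ∀ Ls : List ((H × K →+ ZMod p) × ZMod p),
        Ideal.Quotient.mk (Ideal.span {z - 1}) (Ls.map fun l => w l x).prod =
        Ideal.Quotient.mk (Ideal.span {z - 1})
          (((Ls.map fun l => ((l.1 (gr f x)).val : ℤ) - (l.2.val : ℤ)).prod : ℤ) : 𝓞 L) := by
      intro Ls
      induction Ls with
      | nil => simp
      | cons l Ls ih =>
        rw [List.map_cons, List.prod_cons, map_mul, ih, (hmk _ _).1 (hw2 l x), List.map_cons,
          List.prod_cons, ← map_mul]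
        push_cast
        ring_nf
    simp only [map_mul, map_prod, e2, Int.cast_mul, Int.cast_prod]
    congr 1
    exact prod_congr rfl fun j _ => (hmk _ _).1 (hu2 j x)
  have hsumdvd : (z - 1) ∣ ((∑ x, (∏ j, ind (p ^ (d j)) (σ j) (a j (gr f x)).val (w0 j)) *
      (Ls.map fun l => ((l.1 (gr f x)).val : ℤ) - (l.2.val : ℤ)).prod : ℤ) : 𝓞 L) := by
    have h1 : (z - 1) ∣ ∑ x, (U x - (((∏ j, ind (p ^ (d j)) (σ j) (a j (gr f x)).val (w0 j)) *
      (Ls.map fun l => ((l.1 (gr f x)).val : ℤ) - (l.2.val : ℤ)).prod : ℤ) : 𝓞 L)) :=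
      dvd_sum fun x _ => hcong x
    rw [sum_sub_distrib] at h1
    have h2 := (dvd_sub_right hπU).1 h1
    rw [Int.cast_sum]
    exact h2
  have hdvdp := dvd_of_pi_dvd hζ _ hsumdvd
  have hz0 := (ZMod.intCast_zmod_eq_zero_iff_dvd _ p).2 hdvdp
  rw [Int.cast_sum] at hz0
  refine Eq.trans (sum_congr rfl fun x _ => ?_) hz0
  have e3 : ∀ Ls : List ((H × K →+ ZMod p) × ZMod p),
      (((Ls.map fun l => ((l.1 (gr f x)).val : ℤ) - (l.2.val : ℤ)).prod : ℤ) : ZMod p) =
      (Ls.map fun l => l.1 (gr f x) - l.2).prod := by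
    intro Ls
    induction Ls with
    | nil => simp
    | cons l Ls ih =>
      rw [List.map_cons, List.prod_cons, Int.cast_mul, ih, List.map_cons, List.prod_cons]
      push_cast
      rw [ZMod.natCast_zmod_val, ZMod.natCast_zmod_val]
  rw [Int.cast_mul, e3]

end Pool.Agent.H16.RB2
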