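import Pool.Agent.H16.RB2.Fib2
import Pool.Agent.H16.RB.Rank

/-!
# RB2 module QK: parts of the graph over a quotient kill products of few functionals, exact cost
-/

set_option autoImplicit false

namespace Pool.Agent.H16.RB2

open Finset Pool.Agent.H88.Pl Pool.Agent.H16.RB
open scoped Classical

theorem quot_kills {p r k n : ℕ} [Fact p.Prime] (hp : p ≠ 2) {H K : Type*} [AddCommGroup H]
    [AddCommGroup K] [Fintype H] [Fintype K] (hH : Fintype.card H = p ^ r)
    (hK : Fintype.card K = p ^ r) (f : H → K) (hf : IsPlanar f) (T : AddSubgroup (H × K))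
    (hk : Nat.card (Set.range fun q : (H × K) ⧸ T => p • q) = p ^ k)
    (hn : 2 * (k * (p - 1) + p * n) < r * p * (p - 1) + 2 * p) (v : H × K) :
    Kills p (gr f) (univ.filter fun x => p • (gr f x - v) ∈ T) n := by
  intro Ls hLs
  have hpp : p.Prime := Fact.out
  have hG : Nat.card (H × K) = p ^ (2 * r) := by
    rw [Nat.card_prod, Nat.card_eq_fintype_card, Nat.card_eq_fintype_card, hH, hK, ← pow_add]
    congr 1
    ring
  obtain ⟨N, hN⟩ : ∃ N, Nat.card ((H × K) ⧸ T) = p ^ N := by
    have h1 : Nat.card ((H × K) ⧸ T) ∣ p ^ (2 * r) := by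
      rw [← hG, AddSubgroup.card_eq_card_quotient_mul_card_addSubgroup T]
      exact Dvd.intro _ rfl
    obtain ⟨N, -, hN⟩ := (Nat.dvd_prime_pow hpp).1 h1
    exact ⟨N, hN⟩
  obtain ⟨m, d, a, hd, ha⟩ := exists_digits hN hk
  have h2 := fib_kill hp hH f hf d (fun j => (a j).comp (QuotientAddGroup.mk' T))
    (fun j => (a j (QuotientAddGroup.mk' T v)).val) Ls (by
      rw [hd]
      have h3 : 2 * (k * (p - 1) + p * n) = 2 * (k * (p - 1) + p * (n - 1)) + 2 * p := by
        obtain ⟨n', rfl⟩ : ∃ n', n = n' + 1 := ⟨n - 1, by omega⟩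
        rw [Nat.add_sub_cancel]; ring
      have h4 : p * Ls.length ≤ p * (n - 1) := Nat.mul_le_mul_left _ (by omega)
      omega)
  refine cast ?_ h2
  congr 1
  refine sum_congr ?_ fun _ _ => rfl
  ext x
  simp only [fb, mem_filter, mem_univ, true_and]
  have h5 : p • (gr f x - v) ∈ T ↔ p • QuotientAddGroup.mk' T (gr f x - v) = 0 := by
    rw [← map_nsmul, QuotientAddGroup.mk'_apply, QuotientAddGroup.eq_zero_iff]
  rw [h5, ← ha]
  refine forall_congr' fun j => ?_
  have : NeZero (p ^ (d j + 1)) := ⟨pow_ne_zero _ hpp.ne_zero⟩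
  set u := a j (QuotientAddGroup.mk' T (gr f x)) with hu
  set w := a j (QuotientAddGroup.mk' T v) with hw
  have h6 : a j (QuotientAddGroup.mk' T (gr f x - v)) = u - w := by rw [map_sub, map_sub]
  have h7 : (((a j).comp (QuotientAddGroup.mk' T)) (gr f x)) = u := rfl
  rw [h6, h7]
  have h3 : u = (u - w) + w := by rw [sub_add_cancel]
  have h4 : u.val ≡ (u - w).val + w.val [MOD p ^ (d j)] := by
    have h8 : u.val = ((u - w) + w).val := by rw [← h3]
    rw [h8, ZMod.val_add]
    exact (Nat.mod_modEq _ _).of_dvd (pow_dvd_pow p (Nat.le_succ _))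
  constructor
  · intro h5
    have h6 : 0 + w.val ≡ (u - w).val + w.val [MOD p ^ (d j)] := by
      rw [zero_add]
      exact h5.symm.trans h4
    exact (Nat.modEq_zero_iff_dvd.1 (Nat.ModEq.add_right_cancel' _ h6).symm)
  · intro h5
    have h6 := (Nat.modEq_zero_iff_dvd.2 h5).add_right w.val
    rw [zero_add] at h6
    exact h4.trans h6

theorem sl_kills2 {p r k n : ℕ} [Fact p.Prime] (hp : p ≠ 2) {H K : Type*} [AddCommGroup H]
    [AddCommGroup K] [Fintype H] [Fintype K] (hH : Fintype.card H = p ^ r)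
    (hK : Fintype.card K = p ^ r) (f : H → K) (hf : IsPlanar f)
    (hk : Nat.card (Set.range fun g : H × K => p • g) = p ^ k)
    (hn : 2 * (k * (p - 1) + p * n) < r * p * (p - 1) + 2 * p) (v : H × K) :
    Kills p (gr f) (sl p f (p • v)) n := by
  have e : (H × K) ⧸ (⊥ : AddSubgroup (H × K)) ≃+ H × K := QuotientAddGroup.quotientBot
  have hk' : Nat.card (Set.range fun q : (H × K) ⧸ (⊥ : AddSubgroup (H × K)) => p • q) = p ^ k := by
    rw [← hk]
    refine Nat.card_congr ((Equiv.Set.image e _ e.injective).trans (Equiv.setCongr ?_))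
    ext v
    constructor
    · rintro ⟨_, ⟨g, rfl⟩, rfl⟩
      exact ⟨e g, (map_nsmul e p g).symm⟩
    · rintro ⟨w, rfl⟩
      exact ⟨p • e.symm w, ⟨e.symm w, rfl⟩, by rw [map_nsmul, AddEquiv.apply_symm_apply]⟩
  have h := quot_kills hp hH hK f hf ⊥ hk' hn v
  refine cast ?_ h
  congr 1
  ext x
  simp only [mem_filter, mem_univ, true_and, sl, AddSubgroup.mem_bot]
  rw [smul_sub, sub_eq_zero]

end Pool.Agent.H16.RB2
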